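import Mathlib

set_option autoImplicit false

/-!
# Free products of sofic actions on a set are sofic

The approximations of the single actions are randomised by all permutations of the target set `B`.
Then the embeddings `E → B` are uniformly distributed, whatever the action, so that all the
approximations can be realised on one and the same finite set with the same embeddings.
-/

namespace Pool.Agent.Results.MP_743583_al.FreeProductActions

open Equiv

/-- The normalised Hamming distance on the permutations of a finite set. -/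
noncomputable def hdist {A : Type} (σ τ : Perm A) : ℝ :=
  ({a | σ a ≠ τ a} : Set A).ncard / Nat.card A

/-- The map `φ : G → Sym(A)` is unital. -/
def Unital {G A : Type} [Group G] (φ : G → Perm A) : Prop := φ 1 = 1

/-- The map `φ : G → Sym(A)` is `(F, ε)`-multiplicative. -/
def IsMult {G A : Type} [Group G] (F : Finset G) (ε : ℝ) (φ : G → Perm A) : Prop :=
  ∀ g ∈ F, ∀ h ∈ F, hdist (φ (g * h)) (φ g * φ h) < ε

/-- The map `φ : G → Sym(A)` is an `(F, E, ε)`-orbit approximation of the action
`α : G → Sym(X)`: there are a finite set `B`, a subset `S` of `A` with more than `(1 - ε)|A|`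
elements and embeddings `π s` of `E` into `B` for `s ∈ S` such that
`π (φ(g) s) x = π s (α(g⁻¹) x)` whenever `g ∈ F`, `s, φ(g) s ∈ S` and `x, α(g⁻¹) x ∈ E`. -/
def IsOrbitApprox {G A X : Type} [Group G] (α : G →* Perm X) (F : Finset G) (E : Finset X)
    (ε : ℝ) (φ : G → Perm A) : Prop :=
  ∃ (B : Type) (_ : Finite B) (S : Set A) (π : S → ({x // x ∈ E} ↪ B)),
    (1 - ε) * Nat.card A < S.ncard ∧
    ∀ s s' : S, ∀ g ∈ F, ∀ x x' : {x // x ∈ E}, φ g s.1 = s'.1 → α g⁻¹ x.1 = x'.1 →
      π s' x = π s x'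

/-- The action `α` of the group `G` on the set `X` is sofic. -/
def IsSofic {G X : Type} [Group G] (α : G →* Perm X) : Prop :=
  ∀ (F : Finset G) (E : Finset X) (ε : ℝ), 0 < ε →
    ∃ (A : Type) (_ : Finite A) (φ : G → Perm A),
      Unital φ ∧ IsMult F ε φ ∧ IsOrbitApprox α F E ε φ

/-! ### The Hamming distance -/

theorem hdist_self {A : Type} (σ : Perm A) : hdist σ σ = 0 := by
  unfold hdist
  simp

theorem hdist_mul_left {A : Type} (ρ σ τ : Perm A) : hdist (ρ * σ) (ρ * τ) = hdist σ τ := by
  unfold hdist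
  congr 3
  ext a
  simp

theorem hdist_mul_right {A : Type} (ρ σ τ : Perm A) : hdist (σ * ρ) (τ * ρ) = hdist σ τ := by
  unfold hdist
  congr 2
  have h : ({a | σ a ≠ τ a} : Set A) = ρ '' {a | (σ * ρ) a ≠ (τ * ρ) a} := by
    ext a
    simp only [Set.mem_ofPred_eq, Perm.coe_mul, Function.comp_apply, Set.mem_image]
    constructor
    · intro h
      exact ⟨ρ.symm a, by simpa using h, by simp⟩
    · rintro ⟨b, hb, rfl⟩
      exact hb
  rw [h, Set.ncard_image_of_injective _ ρ.injective]

theorem hdist_triangle {A : Type} [Finite A] (σ τ ρ : Perm A) :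
    hdist σ ρ ≤ hdist σ τ + hdist τ ρ := by
  unfold hdist
  rw [← add_div]
  apply div_le_div_of_nonneg_right _ (Nat.cast_nonneg _)
  rw [← Nat.cast_add, Nat.cast_le]
  refine le_trans (Set.ncard_le_ncard ?_ (Set.toFinite _)) (Set.ncard_union_le _ _)
  intro a ha
  simp only [Set.mem_union, Set.mem_ofPred_eq] at ha ⊢
  by_contra hc
  push Not at hc
  exact ha (hc.1.trans hc.2)

/-! ### Common approximations -/

/-- fraction of a subset -/
noncomputable def frac {A : Type} (C : Set A) : ℝ := C.ncard / Nat.card A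

theorem frac_preimage {A A' R : Type} [Finite A] [Finite R] [Nonempty R] (e : A ≃ A' × R)
    (C : Set A') : frac ((fun a => (e a).1) ⁻¹' C) = frac C := by
  unfold frac
  have h1 : ((fun a => (e a).1) ⁻¹' C) = e.symm '' (C ×ˢ (Set.univ : Set R)) := by
    ext a
    simp only [Set.mem_preimage, Set.mem_image, Set.mem_prod, Set.mem_univ, and_true]
    constructor
    · intro h
      exact ⟨e a, h, by simp⟩
    · rintro ⟨b, hb, rfl⟩
      simpa using hb
  rw [h1, Set.ncard_image_of_injective _ e.symm.injective, Set.ncard_prod, Nat.card_congr e,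
    Nat.card_prod, Set.ncard_univ]
  have hR : (Nat.card R : ℝ) ≠ 0 := by
    have := Nat.card_pos (α := R)
    positivity
  push_cast
  rw [mul_div_mul_right _ _ hR]

theorem hdist_eq_frac {A : Type} (σ τ : Perm A) : hdist σ τ = frac {a | σ a ≠ τ a} := rfl

/-- acting on one coordinate of a product -/
noncomputable def coordPerm {J : Type} [DecidableEq J] {A : J → Type} {P : Type} (j : J)
    (σ : Perm (A j)) : Perm ((∀ j, A j) × P) where
  toFun x := (Function.update x.1 j (σ (x.1 j)), x.2)
  invFun x := (Function.update x.1 j (σ.symm (x.1 j)), x.2)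
  left_inv x := by simp
  right_inv x := by simp

/-- right multiplication of the last coordinate by a permutation depending on one coordinate -/
noncomputable def twist {J : Type} {A : J → Type} {M : ℕ} (j : J)
    (ρ : A j → Perm (Fin M)) : Perm ((∀ j, A j) × Perm (Fin M)) where
  toFun x := (x.1, x.2 * ρ (x.1 j))
  invFun x := (x.1, x.2 * (ρ (x.1 j))⁻¹)
  left_inv x := by simp
  right_inv x := by simp

/-- splitting off one coordinate -/
noncomputable def splitCoord {J : Type} [DecidableEq J] {A : J → Type} {P : Type} (j : J) :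
    ((∀ j, A j) × P) ≃ (A j) × ((∀ j' : {j' // j' ≠ j}, A j'.1) × P) :=
  ((Equiv.piSplitAt j A).prodCongr (Equiv.refl P)).trans (Equiv.prodAssoc _ _ _)

theorem splitCoord_fst {J : Type} [DecidableEq J] {A : J → Type} {P : Type} (j : J)
    (x : (∀ j, A j) × P) : (splitCoord j x).1 = x.1 j := rfl

section comb

variable {I X : Type} {G : I → Type} [∀ i, Group (G i)]

theorem exists_common (α : ∀ i, G i →* Perm X) (h : ∀ i, IsSofic (α i))
    (L : Finset (Σ i, G i)) (E : Finset X) (ε : ℝ) (hε : 0 < ε) :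
    ∃ (A : Type) (_ : Finite A) (M : ℕ) (φ : ∀ i, G i → Perm A) (S : Set A)
      (Pm : A → ({x // x ∈ E} ↪ Fin M)), 0 < Nat.card A ∧ (∀ i, φ i 1 = 1) ∧
      (∀ i g k, (⟨i, g⟩ : Σ i, G i) ∈ L → (⟨i, k⟩ : Σ i, G i) ∈ L →
        hdist (φ i (g * k)) (φ i g * φ i k) ≤ ε) ∧
      frac Sᶜ ≤ ε ∧
      ∀ i g, (⟨i, g⟩ : Σ i, G i) ∈ L → ∀ s ∈ S, φ i g s ∈ S → ∀ x x' : {x // x ∈ E},
        α i g⁻¹ x.1 = x'.1 → Pm (φ i g s) x = Pm s x' := by
  classical
  let I0 : Finset I := L.image Sigma.fst
  let J := {i // i ∈ I0}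
  let F : ∀ i, Finset (G i) := fun i => L.preimage (fun g => (⟨i, g⟩ : Σ i, G i))
    (by intro a _ b _ hab; simpa using hab)
  set δ : ℝ := ε / (I0.card + 1) with hδ
  have hδ0 : 0 < δ := by positivity
  have hδε : δ ≤ ε := by
    rw [hδ]
    apply div_le_self hε.le
    have : (0 : ℝ) ≤ I0.card := Nat.cast_nonneg _
    linarith
  choose A hA φ h1 h2 B hB S π h3 h4 using fun i => h i (F i) E δ hδ0
  have hApos : ∀ i, 0 < Nat.card (A i) := by
    intro i
    rcases Nat.eq_zero_or_pos (Nat.card (A i)) with h0 | h0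
    · exfalso
      have h5 := h3 i
      have h6 : (S i).ncard ≤ Nat.card (A i) := Set.ncard_le_card _
      rw [h0] at h5 h6
      have h7 : (S i).ncard = 0 := by omega
      rw [h7] at h5
      simp at h5
    · exact h0
  have hAne : ∀ i, Nonempty (A i) := fun i => (Nat.card_pos_iff.mp (hApos i)).1
  let M : ℕ := (∑ i ∈ I0, Nat.card (B i)) + E.card
  have hbemb : ∀ j : J, Nonempty (B j.1 ↪ Fin M) := by
    intro j
    have := Fintype.ofFinite (B j.1)
    apply Function.Embedding.nonempty_of_card_le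
    rw [Fintype.card_fin, ← Nat.card_eq_fintype_card]
    have := Finset.single_le_sum (f := fun i => Nat.card (B i)) (fun i _ => Nat.zero_le _) j.2
    exact this.trans (Nat.le_add_right _ _)
  let bb : ∀ j : J, B j.1 ↪ Fin M := fun j => (hbemb j).some
  have he0 : Nonempty ({x // x ∈ E} ↪ Fin M) := by
    apply Function.Embedding.nonempty_of_card_le
    rw [Fintype.card_fin, Fintype.card_coe]
    exact Nat.le_add_left _ _
  let e0 : {x // x ∈ E} ↪ Fin M := he0.some
  have hρ : ∀ (j : J) (a : A j.1), ∃ ρ : Perm (Fin M), ∀ ha : a ∈ S j.1, ∀ x,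
      ρ (bb j (π j.1 ⟨a, ha⟩ x)) = e0 x := by
    intro j a
    by_cases ha : a ∈ S j.1
    · obtain ⟨σ, hσ⟩ := Equiv.Perm.exists_extending_pair
        (fun x => bb j (π j.1 ⟨a, ha⟩ x)) (fun x => e0 x)
        ((bb j).injective.comp (π j.1 ⟨a, ha⟩).injective) e0.injective
      exact ⟨σ, fun _ => hσ⟩
    · exact ⟨1, fun h => absurd h ha⟩
  choose ρ hρ using hρ
  let AA := (∀ j : J, A j.1) × Perm (Fin M)
  have : Finite AA := inferInstance
  have : Nonempty AA := inferInstance
  let T : ∀ j : J, Perm AA := fun j => twist (A := fun j : J => A j.1) j (ρ j)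
  let U : ∀ j : J, Perm (A j.1) → Perm AA := fun j σ =>
    coordPerm (A := fun j : J => A j.1) j σ
  let φφ : ∀ i, G i → Perm AA := fun i g =>
    if hi : i ∈ I0 then (T ⟨i, hi⟩)⁻¹ * U ⟨i, hi⟩ (φ i g) * T ⟨i, hi⟩ else 1
  have hU1 : ∀ j, U j 1 = 1 := by
    intro j
    ext x
    · simp [U, coordPerm]
    · simp [U, coordPerm]
  have hUmul : ∀ j σ τ, U j (σ * τ) = U j σ * U j τ := by
    intro j σ τ
    apply Equiv.ext
    intro x
    simp [U, coordPerm]
  have hUdist : ∀ j σ τ, hdist (U j σ) (U j τ) = hdist σ τ := by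
    intro j σ τ
    rw [hdist_eq_frac, hdist_eq_frac]
    rw [← frac_preimage (splitCoord (A := fun j : J => A j.1) (P := Perm (Fin M)) j)
      {a | σ a ≠ τ a}]
    congr 1
    ext x
    simp only [Set.mem_ofPred_eq, Set.mem_preimage, splitCoord_fst]
    constructor
    · intro hne heq
      apply hne
      simp only [U, coordPerm, Equiv.coe_fn_mk, heq]
    · intro hne heq
      apply hne
      have := congrFun (congrArg Prod.fst heq) j
      simpa [U, coordPerm] using this
  let SS : Set AA := {x | ∀ j : J, x.1 j ∈ S j.1}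
  let Pm : AA → ({x // x ∈ E} ↪ Fin M) := fun x => e0.trans x.2.toEmbedding
  refine ⟨AA, inferInstance, M, φφ, SS, Pm, Nat.card_pos, ?_, ?_, ?_, ?_⟩
  · intro i
    by_cases hi : i ∈ I0
    · simp only [φφ, dif_pos hi]
      rw [h1 i, hU1]
      simp
    · simp only [φφ, dif_neg hi]
  · intro i g k hg hk
    have hi : i ∈ I0 := Finset.mem_image.mpr ⟨_, hg, rfl⟩
    simp only [φφ, dif_pos hi]
    have heq : (T ⟨i, hi⟩)⁻¹ * U ⟨i, hi⟩ (φ i g) * T ⟨i, hi⟩ *
        ((T ⟨i, hi⟩)⁻¹ * U ⟨i, hi⟩ (φ i k) * T ⟨i, hi⟩) =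
        (T ⟨i, hi⟩)⁻¹ * U ⟨i, hi⟩ (φ i g * φ i k) * T ⟨i, hi⟩ := by
      rw [hUmul]; group
    rw [heq, hdist_mul_right, hdist_mul_left, hUdist]
    have hgF : g ∈ F i := Finset.mem_preimage.mpr hg
    have hkF : k ∈ F i := Finset.mem_preimage.mpr hk
    exact (h2 i g hgF k hkF).le.trans hδε
  · have hsub : SSᶜ ⊆ ⋃ j : J, (fun x : AA => x.1 j) ⁻¹' (S j.1)ᶜ := by
      intro x hx
      simp only [SS, Set.mem_compl_iff, Set.mem_ofPred_eq, not_forall] at hx
      obtain ⟨j, hj⟩ := hx
      exact Set.mem_iUnion.mpr ⟨j, hj⟩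
    have hle : frac SSᶜ ≤ ∑ j : J, frac ((fun x : AA => x.1 j) ⁻¹' (S j.1)ᶜ) := by
      unfold frac
      rw [← Finset.sum_div]
      apply div_le_div_of_nonneg_right _ (Nat.cast_nonneg _)
      rw [← Nat.cast_sum, Nat.cast_le]
      refine (Set.ncard_le_ncard hsub (Set.toFinite _)).trans ?_
      have hU : (⋃ j : J, (fun x : AA => x.1 j) ⁻¹' (S j.1)ᶜ) =
          ⋃ j ∈ (Finset.univ : Finset J), (fun x : AA => x.1 j) ⁻¹' (S j.1)ᶜ := by simp
      rw [hU]
      exact Finset.set_ncard_biUnion_le _ _
    have heach : ∀ j : J, frac ((fun x : AA => x.1 j) ⁻¹' (S j.1)ᶜ) ≤ δ := by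
      intro j
      have := frac_preimage (splitCoord (A := fun j : J => A j.1) (P := Perm (Fin M)) j)
        (S j.1)ᶜ
      have h5 : ((fun a : AA => ((splitCoord (A := fun j : J => A j.1)
          (P := Perm (Fin M)) j) a).1) ⁻¹' (S j.1)ᶜ) = (fun x : AA => x.1 j) ⁻¹' (S j.1)ᶜ := rfl
      rw [h5] at this
      rw [this]
      unfold frac
      have h6 := Set.ncard_add_ncard_compl (S j.1)
      have h7 : ((S j.1).ncard : ℝ) + ((S j.1)ᶜ.ncard : ℝ) = Nat.card (A j.1) := by
        exact_mod_cast h6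
      have h8 := h3 j.1
      have h9 : (0 : ℝ) < Nat.card (A j.1) := by exact_mod_cast hApos j.1
      rw [div_le_iff₀ h9]
      nlinarith
    refine hle.trans ((Finset.sum_le_sum fun j _ => heach j).trans ?_)
    rw [Finset.sum_const, nsmul_eq_mul, Finset.card_univ, Fintype.card_coe, hδ]
    rw [mul_div_assoc', div_le_iff₀ (by positivity)]
    nlinarith
  · intro i g hg s hs hgs x x' hxx
    have hi : i ∈ I0 := Finset.mem_image.mpr ⟨_, hg, rfl⟩
    have hgF : g ∈ F i := Finset.mem_preimage.mpr hg
    simp only [φφ, dif_pos hi] at hgs ⊢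
    set j : J := ⟨i, hi⟩ with hj
    have hval : ((T j)⁻¹ * U j (φ i g) * T j) s =
        (Function.update s.1 j (φ i g (s.1 j)),
          s.2 * ρ j (s.1 j) * (ρ j (φ i g (s.1 j)))⁻¹) := by
      show (T j).symm (U j (φ i g) (T j s)) = _
      simp [T, U, twist, coordPerm]
    rw [hval] at hgs ⊢
    have hs1 : s.1 j ∈ S i := hs j
    have hs2 : φ i g (s.1 j) ∈ S i := by
      have := hgs j
      simpa using this
    simp only [Pm, Function.Embedding.trans_apply, Equiv.coe_toEmbedding, Perm.coe_mul,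
      Function.comp_apply]
    have h5 := hρ j (s.1 j) hs1
    have h6 := hρ j (φ i g (s.1 j)) hs2
    have h7 := h4 i ⟨s.1 j, hs1⟩ ⟨φ i g (s.1 j), hs2⟩ g hgF x x' rfl hxx
    have h8 : ∀ (ρ' : Perm (Fin M)) (y : Fin M), ρ'⁻¹ (ρ' y) = y := fun ρ' y => by simp
    rw [← h6 x, h8, h7, h5 x']

end comb

/-! ### Words -/

section words

open Monoid

variable {I X : Type} {G : I → Type} [∀ i, Group (G i)] {A : Type}

/-- product of the permutations of the letters -/
def lprod (φ : ∀ i, G i → Perm A) (l : List (Σ i, G i)) : Perm A :=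
  (l.map fun x => φ x.1 x.2).prod

omit [∀ i, Group (G i)] in
theorem lprod_cons (φ : ∀ i, G i → Perm A) (x : Σ i, G i) (l : List (Σ i, G i)) :
    lprod φ (x :: l) = φ x.1 x.2 * lprod φ l := by
  simp [lprod]

/-- multiply a word by a list of letters -/
noncomputable def run (l : List (Σ i, G i)) (w : CoprodI.Word G) : CoprodI.Word G := by
  classical exact (l.map fun x => (CoprodI.of x.2 : CoprodI G)).prod • w

/-- the letters involved in a computation -/
noncomputable def need : List (Σ i, G i) → CoprodI.Word G → List (Σ i, G i)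
  | [], _ => []
  | x :: l, w => by
    classical exact x :: ⟨x.1, (CoprodI.Word.equivPair x.1 (run l w)).head⟩ :: need l w

theorem lprod_rcons [DecidableEq I] [∀ i, DecidableEq (G i)] (φ : ∀ i, G i → Perm A)
    (h1 : ∀ i, φ i 1 = 1) {i : I} (p : CoprodI.Word.Pair G i) :
    lprod φ (CoprodI.Word.rcons p).toList = φ i p.head * lprod φ p.tail.toList := by
  unfold CoprodI.Word.rcons
  by_cases h : p.head = 1
  · rw [dif_pos h, h, h1, one_mul]
  · rw [dif_neg h]
    exact lprod_cons φ ⟨i, p.head⟩ p.tail.toList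

theorem hdist_run [Finite A] (φ : ∀ i, G i → Perm A) (h1 : ∀ i, φ i 1 = 1)
    (L : Finset (Σ i, G i)) (ε : ℝ)
    (h2 : ∀ i g k, (⟨i, g⟩ : Σ i, G i) ∈ L → (⟨i, k⟩ : Σ i, G i) ∈ L →
        hdist (φ i (g * k)) (φ i g * φ i k) ≤ ε) (w : CoprodI.Word G) :
    ∀ l : List (Σ i, G i), (∀ x ∈ need l w, x ∈ L) →
      hdist (lprod φ (run l w).toList) (lprod φ l * lprod φ w.toList) ≤ l.length * ε := by
  classical
  intro l
  induction l with
  | nil =>
    intro _
    have : run ([] : List (Σ i, G i)) w = w := by simp [run]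
    rw [this]
    simp [lprod, hdist_self]
  | cons x l ih =>
    intro hL
    have hx : x ∈ L := hL x (by simp [need])
    have hk : (⟨x.1, (CoprodI.Word.equivPair x.1 (run l w)).head⟩ : Σ i, G i) ∈ L :=
      hL _ (by simp [need])
    have hih := ih (fun y hy => hL y (by
      simp only [need, List.mem_cons]
      exact Or.inr (Or.inr hy)))
    have hrun : run (x :: l) w = (CoprodI.of x.2 : CoprodI G) • run l w := by
      simp only [run, List.map_cons, List.prod_cons, mul_smul]
    set p := CoprodI.Word.equivPair x.1 (run l w) with hp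
    have hw : lprod φ (run l w).toList = φ x.1 p.head * lprod φ p.tail.toList := by
      rw [← lprod_rcons φ h1 p, hp, ← CoprodI.Word.equivPair_symm, Equiv.symm_apply_apply]
    have hw2 : lprod φ (run (x :: l) w).toList =
        φ x.1 (x.2 * p.head) * lprod φ p.tail.toList := by
      rw [hrun, CoprodI.Word.of_smul_def, lprod_rcons φ h1]
    have h5 : hdist (lprod φ (run (x :: l) w).toList)
        (φ x.1 x.2 * lprod φ (run l w).toList) ≤ ε := by
      rw [hw2, hw, ← mul_assoc, hdist_mul_right]
      exact h2 x.1 x.2 p.head hx hk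
    have h6 : hdist (φ x.1 x.2 * lprod φ (run l w).toList)
        (lprod φ (x :: l) * lprod φ w.toList) ≤ l.length * ε := by
      rw [lprod_cons, mul_assoc, hdist_mul_left]
      exact hih
    refine (hdist_triangle _ (φ x.1 x.2 * lprod φ (run l w).toList) _).trans ?_
    rw [List.length_cons]
    push_cast
    linarith

/-- the points visited -/
def pts (α : ∀ i, G i →* Perm X) : List (Σ i, G i) → X → List X
  | [], x => [x]
  | y :: l, x => x :: pts α l (α y.1 y.2⁻¹ x)

theorem mem_pts_self (α : ∀ i, G i →* Perm X) (l : List (Σ i, G i)) (x : X) :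
    x ∈ pts α l x := by
  cases l <;> simp [pts]

theorem mem_pts_last (α : ∀ i, G i →* Perm X) (l : List (Σ i, G i)) (x : X) :
    (CoprodI.lift α (l.map fun x => (CoprodI.of x.2 : CoprodI G)).prod)⁻¹ x ∈ pts α l x := by
  induction l generalizing x with
  | nil => simp [pts]
  | cons y l ih =>
    have h := ih (α y.1 y.2⁻¹ x)
    simp only [pts, List.mem_cons]
    right
    rw [List.map_cons, List.prod_cons, map_mul, mul_inv_rev, Perm.coe_mul,
      Function.comp_apply, CoprodI.lift_of, ← map_inv (α y.1)]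
    exact h

theorem orbit_run (α : ∀ i, G i →* Perm X) (φ : ∀ i, G i → Perm A)
    (L : Finset (Σ i, G i)) (E : Finset X) (M : ℕ) (S : Set A) (Pm : A → ({x // x ∈ E} ↪ Fin M))
    (h4 : ∀ i g, (⟨i, g⟩ : Σ i, G i) ∈ L → ∀ s ∈ S, φ i g s ∈ S → ∀ x x' : {x // x ∈ E},
        α i g⁻¹ x.1 = x'.1 → Pm (φ i g s) x = Pm s x') :
    ∀ (l : List (Σ i, G i)) (s : A), (∀ y ∈ l, y ∈ L) → (∀ l', l' <:+ l → lprod φ l' s ∈ S) →
      ∀ x x' : {x // x ∈ E}, (∀ z ∈ pts α l x.1, z ∈ E) →
      (CoprodI.lift α (l.map fun x => (CoprodI.of x.2 : CoprodI G)).prod)⁻¹ x.1 = x'.1 →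
      Pm (lprod φ l s) x = Pm s x' := by
  intro l
  induction l with
  | nil =>
    intro s _ _ x x' _ hx
    have : x = x' := Subtype.ext (by simpa using hx)
    rw [this]
    simp [lprod]
  | cons y l ih =>
    intro s hl hS x x' hp hx
    rw [lprod_cons, Perm.coe_mul, Function.comp_apply]
    have hmem : α y.1 y.2⁻¹ x.1 ∈ E := hp _ (by
      simp only [pts, List.mem_cons]
      right
      exact mem_pts_self α l _)
    have h5 := h4 y.1 y.2 (hl y (by simp)) (lprod φ l s) (hS l (List.suffix_cons y l))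
      (by
        have := hS (y :: l) List.suffix_rfl
        rw [lprod_cons, Perm.coe_mul, Function.comp_apply] at this
        exact this) x ⟨_, hmem⟩ rfl
    rw [h5]
    apply ih s (fun z hz => hl z (List.mem_cons_of_mem _ hz))
      (fun l' hl' => hS l' (hl'.trans (List.suffix_cons y l)))
    · intro z hz
      exact hp z (by
        simp only [pts, List.mem_cons]
        exact Or.inr hz)
    · rw [← hx]
      simp only [List.map_cons, List.prod_cons, map_mul, mul_inv_rev, Perm.coe_mul,
        Function.comp_apply, CoprodI.lift_of, map_inv]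

end words

open Monoid in
/-- If all the actions `α i` of the groups `G i` on the set `X` are sofic, then so is the induced
action of the free product of the groups `G i` on `X`. -/
theorem result {I X : Type} {G : I → Type} [∀ i, Group (G i)] (α : ∀ i, G i →* Equiv.Perm X)
    (h : ∀ i, IsSofic (α i)) : IsSofic (Monoid.CoprodI.lift α) := by
  classical
  intro F E ε hε
  let W : CoprodI G → List (Σ i, G i) := fun g => (CoprodI.Word.equiv g).toList
  have hWprod : ∀ g, ((W g).map fun x => (CoprodI.of x.2 : CoprodI G)).prod = g := by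
    intro g
    exact CoprodI.Word.equiv.symm_apply_apply g
  -- the finite sets
  let L : Finset (Σ i, G i) :=
    (F.biUnion fun g => F.biUnion fun k => (need (W g) (CoprodI.Word.equiv k)).toFinset) ∪
      F.biUnion fun g => (W g).toFinset
  let E' : Finset X := E ∪ F.biUnion fun g => E.biUnion fun x => (pts α (W g) x).toFinset
  let N : ℕ := 1 + ∑ g ∈ F, ((W g).length + 1)
  set δ : ℝ := ε / (N + 1) with hδ
  have hN0 : (0 : ℝ) ≤ N := Nat.cast_nonneg _
  have hδ0 : 0 < δ := by positivity
  have hNδ : N * δ < ε := by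
    rw [hδ, mul_div_assoc', div_lt_iff₀ (by positivity)]
    nlinarith
  obtain ⟨A, hA, M, φ, S, Pm, hcard, h1, h2, h3, h4⟩ := exists_common α h L E' δ hδ0
  refine ⟨A, hA, fun g => lprod φ (W g), ?_, ?_, ?_⟩
  · show lprod φ (W 1) = 1
    have : W 1 = [] := by
      show ((1 : CoprodI G) • (CoprodI.Word.empty : CoprodI.Word G)).toList = []
      rw [one_smul]; rfl
    rw [this]
    simp [lprod]
  · intro g hg k hk
    have h5 := hdist_run φ h1 L δ h2 (CoprodI.Word.equiv k) (W g) (by
      intro x hx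
      apply Finset.mem_union_left
      rw [Finset.mem_biUnion]
      refine ⟨g, hg, ?_⟩
      rw [Finset.mem_biUnion]
      exact ⟨k, hk, List.mem_toFinset.mpr hx⟩)
    have h6 : run (W g) (CoprodI.Word.equiv k) = CoprodI.Word.equiv (g * k) := by
      unfold run
      rw [hWprod]
      show g • (k • (CoprodI.Word.empty : CoprodI.Word G)) = (g * k) • CoprodI.Word.empty
      rw [mul_smul]
    rw [h6] at h5
    refine lt_of_le_of_lt h5 (lt_of_le_of_lt ?_ hNδ)
    apply mul_le_mul_of_nonneg_right _ hδ0.le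
    rw [Nat.cast_le]
    have := Finset.single_le_sum (f := fun g => (W g).length + 1) (fun i _ => Nat.zero_le _) hg
    simp only [N]
    omega
  · -- orbit approximation
    let S' : Set A := {s | ∀ g ∈ F, ∀ l', l' <:+ W g → lprod φ l' s ∈ S}
    have hEE' : ∀ x, x ∈ E → x ∈ E' := fun x hx => Finset.mem_union_left _ hx
    let inc : {x // x ∈ E} ↪ {x // x ∈ E'} :=
      ⟨fun x => ⟨x.1, hEE' x.1 x.2⟩, fun x y hxy => Subtype.ext (congrArg (fun z => z.1) hxy)⟩
    refine ⟨Fin M, inferInstance, S', fun s => inc.trans (Pm s.1), ?_, ?_⟩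
    · have hsub : S'ᶜ ⊆ ⋃ g ∈ F, ⋃ l' ∈ (W g).tails.toFinset, (lprod φ l') ⁻¹' Sᶜ := by
        intro s hs
        simp only [S', Set.mem_compl_iff, Set.mem_ofPred_eq, not_forall] at hs
        obtain ⟨g, hg, l', hl', hsl⟩ := hs
        simp only [Set.mem_iUnion]
        exact ⟨g, hg, l', by simpa using hl', hsl⟩
      have hcardle : (S'ᶜ).ncard ≤ N * (Sᶜ).ncard := by
        refine (Set.ncard_le_ncard hsub (Set.toFinite _)).trans ?_
        refine (Finset.set_ncard_biUnion_le _ _).trans ?_
        have : ∀ g ∈ F, (⋃ l' ∈ (W g).tails.toFinset, (lprod φ l') ⁻¹' Sᶜ).ncard ≤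
            ((W g).length + 1) * (Sᶜ).ncard := by
          intro g _
          refine (Finset.set_ncard_biUnion_le _ _).trans ?_
          have hpre : ∀ l' ∈ (W g).tails.toFinset, ((lprod φ l') ⁻¹' Sᶜ).ncard ≤ (Sᶜ).ncard := by
            intro l' _
            rw [← Equiv.image_symm_eq_preimage]
            exact Set.ncard_image_le (Set.toFinite _)
          refine (Finset.sum_le_card_nsmul _ _ _ hpre).trans ?_
          rw [smul_eq_mul]
          apply Nat.mul_le_mul_right
          refine (List.toFinset_card_le _).trans ?_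
          rw [List.length_tails]
        refine (Finset.sum_le_sum this).trans ?_
        rw [← Finset.sum_mul]
        apply Nat.mul_le_mul_right
        simp only [N]
        omega
      have h5 : (S'.ncard : ℝ) + (S'ᶜ.ncard : ℝ) = Nat.card A := by
        exact_mod_cast Set.ncard_add_ncard_compl S'
      have h6 : ((S'ᶜ).ncard : ℝ) ≤ N * (Sᶜ).ncard := by exact_mod_cast hcardle
      have h7 : ((Sᶜ).ncard : ℝ) ≤ δ * Nat.card A := by
        unfold frac at h3
        rw [div_le_iff₀ (by exact_mod_cast hcard)] at h3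
        exact h3
      have hc : (0 : ℝ) < Nat.card A := by exact_mod_cast hcard
      have h8 : (N : ℝ) * (Sᶜ).ncard ≤ N * (δ * Nat.card A) := mul_le_mul_of_nonneg_left h7 hN0
      have h9 : (N : ℝ) * (δ * Nat.card A) < ε * Nat.card A := by
        rw [← mul_assoc]
        exact mul_lt_mul_of_pos_right hNδ hc
      linarith
    · intro s s' g hg x x' hs hx
      have hmain := orbit_run α φ L E' M S Pm h4 (W g) s.1
        (by
          intro y hy
          apply Finset.mem_union_right
          rw [Finset.mem_biUnion]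
          exact ⟨g, hg, List.mem_toFinset.mpr hy⟩)
        (fun l' hl' => s.2 g hg l' hl') (inc x) (inc x')
        (by
          intro z hz
          apply Finset.mem_union_right
          rw [Finset.mem_biUnion]
          refine ⟨g, hg, ?_⟩
          rw [Finset.mem_biUnion]
          exact ⟨x.1, x.2, List.mem_toFinset.mpr hz⟩)
        (by
          rw [hWprod]
          rw [map_inv] at hx
          exact hx)
      show Pm s'.1 (inc x) = Pm s.1 (inc x')
      rw [← hs]
      exact hmain

end Pool.Agent.Results.MP_743583_al.FreeProductActions
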